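import Pool.Agent.Y676.Defs
import Pool.Agent.H241R2.RZ2_C3
import Pool.Agent.Helper112.MultLS

/-!
# LSM: the large sieve for powers of sums of Jacobi symbols over primes

(helper157, for the project of helper676.)
-/

set_option autoImplicit false

namespace Pool.Agent.Y157.SH

open Finset Pool.Agent.Y676

/-- the tuples of elements of `P` with product `n` -/
def tup (P : Finset ℕ) (m n : ℕ) : Finset (Fin m → ℕ) :=
  (Fintype.piFinset (fun _ : Fin m => P)).filter (fun d => ∏ i, d i = n)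

theorem tup_card (P : Finset ℕ) (hP : ∀ p ∈ P, p.Prime) (m n : ℕ) :
    (tup P m n).card ≤ m.factorial := by
  induction m generalizing n with
  | zero =>
    refine (card_filter_le _ _).trans ?_
    rw [Fintype.card_piFinset]
    simp
  | succ m ih =>
    rcases (tup P (m + 1) n).eq_empty_or_nonempty with h | ⟨d0, hd0⟩
    · rw [h, card_empty]
      exact Nat.zero_le _
    have hpf : n.primeFactors.card ≤ m + 1 := by
      unfold tup at hd0
      rw [mem_filter, Fintype.mem_piFinset] at hd0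
      obtain ⟨h1, h2⟩ := hd0
      have hsub : n.primeFactors ⊆ univ.image d0 := by
        intro p hp
        have hpp := Nat.prime_of_mem_primeFactors hp
        have h3 := Nat.dvd_of_mem_primeFactors hp
        rw [← h2] at h3
        obtain ⟨i, -, hi⟩ := (hpp.prime.dvd_finsetProd_iff _).1 h3
        rw [mem_image]
        exact ⟨i, mem_univ _, ((Nat.prime_dvd_prime_iff_eq hpp (hP _ (h1 i))).1 hi).symm⟩
      refine (card_le_card hsub).trans (card_image_le.trans ?_)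
      rw [card_univ, Fintype.card_fin]
    have hsub : tup P (m + 1) n ⊆ n.primeFactors.biUnion
        (fun p => (tup P (m + 1) n).filter (fun d => d 0 = p)) := by
      intro d hd
      rw [mem_biUnion]
      refine ⟨d 0, ?_, mem_filter.2 ⟨hd, rfl⟩⟩
      unfold tup at hd
      rw [mem_filter, Fintype.mem_piFinset] at hd
      obtain ⟨h1, h2⟩ := hd
      rw [Nat.mem_primeFactors]
      refine ⟨hP _ (h1 0), ?_, ?_⟩
      · rw [← h2]
        exact dvd_prod_of_mem _ (mem_univ _)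
      · rw [← h2]
        exact prod_ne_zero_iff.2 fun i _ => (hP _ (h1 i)).ne_zero
    refine (card_le_card hsub).trans ((card_biUnion_le_card_mul _ _ m.factorial ?_).trans ?_)
    · intro p hp
      have hpp := Nat.prime_of_mem_primeFactors hp
      refine le_trans ?_ (ih (n / p))
      refine card_le_card_of_injOn (fun d => Fin.tail d) ?_ ?_
      · intro d hd
        rw [mem_coe, mem_filter] at hd
        obtain ⟨hd, h0⟩ := hd
        unfold tup at hd ⊢
        rw [mem_filter, Fintype.mem_piFinset] at hd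
        rw [mem_coe, mem_filter, Fintype.mem_piFinset]
        refine ⟨fun i => hd.1 i.succ, ?_⟩
        rw [← hd.2, Fin.prod_univ_succ, h0, Nat.mul_div_cancel_left _ hpp.pos]
        rfl
      · intro d hd d' hd' h
        rw [mem_coe, mem_filter] at hd hd'
        funext i
        refine Fin.cases ?_ (fun j => ?_) i
        · rw [hd.2, hd'.2]
        · exact congrFun h j
    · rw [Nat.factorial_succ]
      exact Nat.mul_le_mul_right _ hpf

/-- the coefficients of the `m`-th power -/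
def al (P : Finset ℕ) (m n : ℕ) : ℕ := (tup P m n).card

theorem prod_mem_Icc (Q m : ℕ) (P : Finset ℕ) (hP : P ⊆ Icc 1 Q) (d : Fin m → ℕ)
    (hd : d ∈ Fintype.piFinset (fun _ : Fin m => P)) : ∏ i, d i ∈ Icc 1 (Q ^ m) := by
  rw [Fintype.mem_piFinset] at hd
  rw [mem_Icc]
  constructor
  · exact Finset.one_le_prod' (fun i _ => (mem_Icc.mp (hP (hd i))).1)
  · calc ∏ i, d i ≤ ∏ _i : Fin m, Q := Finset.prod_le_prod' (fun i _ => (mem_Icc.mp (hP (hd i))).2)
      _ = Q ^ m := by simp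

theorem pow_expand (Q m : ℕ) (P : Finset ℕ) (hP : P ⊆ Icc 1 Q) (f : ℕ)
    (χ : DirichletCharacter ℂ f) :
    (∑ q ∈ P, χ (q : ZMod f)) ^ m = ∑ n ∈ Icc 1 (Q ^ m), (al P m n : ℂ) * χ (n : ZMod f) := by
  rw [Finset.sum_pow']
  rw [← Finset.sum_fiberwise_of_maps_to (g := fun d : Fin m → ℕ => ∏ i, d i)
    (fun d hd => prod_mem_Icc Q m P hP d hd)]
  refine Finset.sum_congr rfl (fun n _ => ?_)
  have h1 : ∀ d ∈ (Fintype.piFinset (fun _ : Fin m => P)).filter (fun d => ∏ i, d i = n),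
      ∏ i, χ ((d i : ℕ) : ZMod f) = χ (n : ZMod f) := by
    intro d hd
    rw [mem_filter] at hd
    rw [← hd.2]
    push_cast
    rw [map_prod]
  rw [sum_congr rfl h1, sum_const, nsmul_eq_mul]
  rfl

theorem sum_al_sq (Q m : ℕ) (P : Finset ℕ) (hP : P ⊆ Icc 1 Q) (hpr : ∀ p ∈ P, p.Prime) :
    ∑ n ∈ Icc 1 (Q ^ m), (al P m n : ℝ) ^ 2 ≤ m.factorial * (Q : ℝ) ^ m := by
  have h1 : ∀ n ∈ Icc 1 (Q ^ m), (al P m n : ℝ) ^ 2 ≤ m.factorial * (al P m n : ℝ) := by
    intro n _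
    have h2 : (al P m n : ℝ) ≤ m.factorial := by exact_mod_cast tup_card P hpr m n
    rw [sq]
    exact mul_le_mul_of_nonneg_right h2 (Nat.cast_nonneg _)
  refine (sum_le_sum h1).trans ?_
  rw [← mul_sum]
  have h3 : ∑ n ∈ Icc 1 (Q ^ m), (al P m n : ℝ) ≤ (Q : ℝ) ^ m := by
    have h4 : ∑ n ∈ Icc 1 (Q ^ m), al P m n ≤ Q ^ m := by
      unfold al tup
      rw [← card_eq_sum_card_fiberwise (fun d hd => prod_mem_Icc Q m P hP d hd)]
      rw [Fintype.card_piFinset]
      have h5 : P.card ≤ Q := by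
        have := card_le_card hP
        rwa [Nat.card_Icc, Nat.add_sub_cancel] at this
      calc ∏ _i : Fin m, P.card ≤ ∏ _i : Fin m, Q := Finset.prod_le_prod' (fun _ _ => h5)
        _ = Q ^ m := by simp
    exact_mod_cast h4
  gcongr

theorem PQ_sub (W Q : ℕ) : PQ W Q ⊆ Icc 1 Q := filter_subset _ _

theorem PQ_prime (W Q : ℕ) : ∀ p ∈ PQ W Q, p.Prime := fun p hp => by
  unfold PQ at hp
  rw [mem_filter] at hp
  exact hp.2.1

theorem PQ_mod (W Q : ℕ) (h8 : 8 ∣ W) : ∀ p ∈ PQ W Q, p % 8 = 1 := fun p hp => by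
  unfold PQ at hp
  rw [mem_filter] at hp
  have h1 := hp.2.2
  have h2 : p ≡ 1 [MOD 8] := Nat.ModEq.of_dvd h8 h1
  have h3 : p % 8 = 1 % 8 := h2
  omega

/-- the Jacobi symbol as a value of a primitive character modulo `8 D` -/
theorem js_eq (q D : ℕ) (hq : q.Prime) (h8 : q % 8 = 1) (hD : Odd D) :
    Pool.Agent.H306R2.RZ.js (8 * (D : ℤ)) q = ((jacobiSym (q : ℤ) D : ℤ) : ℝ) := by
  have hqo : Odd q := Nat.odd_iff.2 (by omega)
  rw [Pool.Agent.H241R2.RZC3.js_odd D q hqo]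
  congr 1
  rw [jacobiSym.mul_left]
  have h2 : jacobiSym 2 q = 1 := by
    rw [jacobiSym.at_two hqo, ZMod.χ₈_nat_eq_if_mod_eight]
    simp [h8, Nat.odd_iff.1 hqo]
  rw [h2, one_mul]
  rw [jacobiSym.quadratic_reciprocity_one_mod_four' hD (by omega)]

theorem lsm : S_LSM := by
  classical
  intro W Q Z m h8 hW
  have hLS := Pool.Agent.Helper112.mult_large_sieve (Q ^ m) (8 * Z) (fun n => (al (PQ W Q) m n : ℂ))
  have h1 : ∑ n ∈ Icc 1 (Q ^ m), ‖(al (PQ W Q) m n : ℂ)‖ ^ 2 ≤ m.factorial * (Q : ℝ) ^ m := by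
    refine le_trans (le_of_eq ?_) (sum_al_sq Q m (PQ W Q) (PQ_sub W Q) (PQ_prime W Q))
    refine sum_congr rfl fun n _ => ?_
    rw [Complex.norm_natCast]
  have h2 : (6 : ℝ) * ((Q ^ m : ℕ) + ((8 * Z : ℕ) : ℝ) ^ 2) *
      ∑ n ∈ Icc 1 (Q ^ m), ‖(al (PQ W Q) m n : ℂ)‖ ^ 2 ≤
      6 * ((Q : ℝ) ^ m + 64 * (Z : ℝ) ^ 2) * (m.factorial * (Q : ℝ) ^ m) := by
    have e1 : (6 : ℝ) * ((Q ^ m : ℕ) + ((8 * Z : ℕ) : ℝ) ^ 2) =
        6 * ((Q : ℝ) ^ m + 64 * (Z : ℝ) ^ 2) := by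
      push_cast
      ring
    rw [e1]
    gcongr
  refine le_trans ?_ (hLS.trans h2)
  -- restrict to the moduli `8 D`
  set g : ℕ → ℝ := fun f => ((f : ℝ) / (Nat.totient f : ℝ)) *
      ∑ χ ∈ (univ : Finset (DirichletCharacter ℂ f)).filter (fun χ => χ.IsPrimitive),
        ‖∑ n ∈ Icc 1 (Q ^ m), (al (PQ W Q) m n : ℂ) * χ (n : ZMod f)‖ ^ 2 with hg
  have hg0 : ∀ f, 0 ≤ g f := fun f =>
    mul_nonneg (by positivity) (Finset.sum_nonneg (fun _ _ => sq_nonneg _))
  have h3 : ∀ D ∈ (Icc 1 Z).filter (fun D => Odd D ∧ Squarefree D),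
      |(SJ W Q D : ℝ)| ^ (2 * m) ≤ g (8 * D) := by
    intro D hD
    rw [mem_filter, mem_Icc] at hD
    obtain ⟨⟨hD1, hDZ⟩, hodd, hsq⟩ := hD
    obtain ⟨χ, hprim, -, hχ⟩ := Pool.Agent.H241R2.RZC3.C3 D hodd hsq
    have htot : (1 : ℝ) ≤ ((8 * D : ℕ) : ℝ) / (Nat.totient (8 * D) : ℝ) := by
      rw [one_le_div (by exact_mod_cast Nat.totient_pos.mpr (by omega))]
      exact_mod_cast Nat.totient_le (8 * D)
    have hnn : (0 : ℝ) ≤ ∑ χ ∈ (univ : Finset (DirichletCharacter ℂ (8 * D))).filter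
        (fun χ => χ.IsPrimitive),
        ‖∑ n ∈ Icc 1 (Q ^ m), (al (PQ W Q) m n : ℂ) * χ (n : ZMod (8 * D))‖ ^ 2 :=
      Finset.sum_nonneg (fun _ _ => sq_nonneg _)
    refine le_trans ?_ (le_mul_of_one_le_left hnn htot)
    refine le_trans (le_of_eq ?_) (single_le_sum (f := fun χ : DirichletCharacter ℂ (8 * D) =>
      ‖∑ n ∈ Icc 1 (Q ^ m), (al (PQ W Q) m n : ℂ) * χ (n : ZMod (8 * D))‖ ^ 2)
      (fun _ _ => sq_nonneg _) (mem_filter.2 ⟨mem_univ χ, hprim⟩))
    rw [← pow_expand Q m (PQ W Q) (PQ_sub W Q), norm_pow, ← pow_mul, mul_comm m 2]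
    congr 1
    have h4 : ∑ q ∈ PQ W Q, χ (q : ZMod (8 * D)) = ((SJ W Q D : ℝ) : ℂ) := by
      unfold SJ
      push_cast
      refine sum_congr rfl fun q hq => ?_
      have hqp := PQ_prime W Q q hq
      rw [hχ q hqp.ne_zero, js_eq q D hqp (PQ_mod W Q h8 q hq) hodd]
      push_cast
      rfl
    rw [h4, Complex.norm_real, Real.norm_eq_abs]
  refine (sum_le_sum h3).trans ?_
  have h5 : ∑ D ∈ (Icc 1 Z).filter (fun D => Odd D ∧ Squarefree D), g (8 * D) =
      ∑ f ∈ ((Icc 1 Z).filter (fun D => Odd D ∧ Squarefree D)).image (fun D => 8 * D), g f := by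
    rw [sum_image]
    intro a _ b _ h
    simp only at h
    omega
  rw [h5]
  apply sum_le_sum_of_subset_of_nonneg
  · intro f hf
    rw [mem_image] at hf
    obtain ⟨D, hD, rfl⟩ := hf
    rw [mem_filter, mem_Icc] at hD
    rw [mem_Icc]
    omega
  · intro f _ _
    exact hg0 f

end Pool.Agent.Y157.SH
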