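import Pool.Agent.Y676.Defs
import Pool.Agent.Helper923.PNT

/-!
# PNT: a lower bound for the number of primes `1` modulo `W`

(helper157, for the project of helper676.)
-/

set_option autoImplicit false

namespace Pool.Agent.Y157.SH

open Finset Filter Topology Pool.Agent.Y676

theorem pnt : S_PNT := by
  classical
  intro W hW
  have : NeZero W := ⟨hW.ne'⟩
  have hφ : (0 : ℝ) < W.totient := by exact_mod_cast Nat.totient_pos.mpr hW
  have hunit : IsUnit (1 : ZMod W) := isUnit_one
  have hpnt := Pool.Agent.Helper923.PNT.pnt_residueClass hunit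
  set c : ℝ := ((W.totient : ℝ))⁻¹ with hc
  have hc0 : 0 < c := by positivity
  have h1 : ∀ᶠ x : ℝ in atTop, c * (3 / 4) < (∑ k ∈ Finset.Icc 1 ⌊x⌋₊,
      ArithmeticFunction.vonMangoldt.residueClass (1 : ZMod W) k) / x :=
    hpnt.eventually_const_lt (by linarith)
  have h2 : ∀ᶠ x : ℝ in atTop, Real.log x ≤ (c / 8) * Real.sqrt x := by
    have := (isLittleO_log_rpow_atTop (show (0 : ℝ) < 1 / 2 by norm_num)).def
      (show (0 : ℝ) < c / 8 by positivity)
    filter_upwards [this, eventually_ge_atTop (1 : ℝ)] with x hx hx1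
    rw [Real.norm_of_nonneg (Real.log_nonneg hx1), Real.norm_of_nonneg (by positivity),
      ← Real.sqrt_eq_rpow] at hx
    exact hx
  have h3 := tendsto_natCast_atTop_atTop (R := ℝ) |>.eventually (h1.and h2)
  obtain ⟨Q0, hQ0⟩ := eventually_atTop.1 (h3.and (eventually_ge_atTop 3))
  refine ⟨c / 2, Q0, by positivity, fun Q hQ => ?_⟩
  obtain ⟨⟨a1, a2⟩, a3⟩ := hQ0 Q hQ
  have hQr : (3 : ℝ) ≤ Q := by exact_mod_cast a3
  have hQ0 : (0 : ℝ) < Q := by linarith
  have hlog : 0 < Real.log Q := Real.log_pos (by linarith)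
  rw [Nat.floor_natCast, lt_div_iff₀ hQ0] at a1
  have hle : ∀ k ∈ Icc 1 Q, ArithmeticFunction.vonMangoldt.residueClass (1 : ZMod W) k ≤
      (if k ∈ PQ W Q then Real.log Q else 0) +
      (if ¬ k.Prime then ArithmeticFunction.vonMangoldt k else 0) := by
    intro k hk
    by_cases hp : k.Prime
    · rw [if_neg (not_not.mpr hp), add_zero]
      by_cases hkr : k % W = 1 % W
      · rw [if_pos (by unfold PQ; rw [mem_filter]; exact ⟨hk, hp, hkr⟩)]
        refine (ArithmeticFunction.vonMangoldt.residueClass_le _ _).trans ?_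
        rw [ArithmeticFunction.vonMangoldt_apply_prime hp]
        apply Real.log_le_log (by exact_mod_cast hp.pos)
        exact_mod_cast (mem_Icc.1 hk).2
      · have h0 : ArithmeticFunction.vonMangoldt.residueClass (1 : ZMod W) k = 0 := by
          apply Set.indicator_of_notMem
          simp only [Set.mem_ofPred_eq]
          intro hcon
          apply hkr
          rw [← Nat.cast_one, ZMod.natCast_eq_natCast_iff] at hcon
          exact hcon
        rw [h0]
        split_ifs
        · exact hlog.le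
        · exact le_rfl
    · rw [if_pos hp]
      have h0 := ArithmeticFunction.vonMangoldt.residueClass_le (1 : ZMod W) k
      have h2 : 0 ≤ (if k ∈ PQ W Q then Real.log Q else 0) := by
        split_ifs
        · exact hlog.le
        · exact le_rfl
      linarith
  have hpp : ∑ k ∈ Icc 1 Q, (if ¬ k.Prime then ArithmeticFunction.vonMangoldt k else 0) ≤
      2 * Real.sqrt Q * Real.log Q := by
    rw [← Finset.sum_filter]
    have h4 := Chebyshev.psi_sub_theta_eq_sum_not_prime (Q : ℝ)
    have h5 := Chebyshev.psi_sub_theta_le (x := (Q : ℝ)) (by linarith)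
    rw [h4, Nat.floor_natCast] at h5
    exact h5
  have hsum := sum_le_sum hle
  rw [sum_add_distrib, ← sum_filter] at hsum
  have hfil : (Icc 1 Q).filter (fun k => k ∈ PQ W Q) = PQ W Q := by
    ext k
    rw [mem_filter]
    refine ⟨fun h => h.2, fun h => ⟨?_, h⟩⟩
    unfold PQ at h
    exact (mem_filter.1 h).1
  rw [hfil, sum_const, nsmul_eq_mul] at hsum
  have h4 : 2 * Real.sqrt Q * Real.log Q ≤ (c / 4) * Q := by
    have h5 : Real.sqrt Q * Real.sqrt Q = Q := Real.mul_self_sqrt hQ0.le
    calc 2 * Real.sqrt Q * Real.log Q ≤ 2 * Real.sqrt Q * ((c / 8) * Real.sqrt Q) := by gcongr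
      _ = (c / 4) * (Real.sqrt Q * Real.sqrt Q) := by ring
      _ = (c / 4) * Q := by rw [h5]
  rw [div_le_iff₀ hlog]
  linarith

end Pool.Agent.Y157.SH
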