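import Pool.Agent.Y676.Defs
import Pool.Agent.W762.EC.SSA
import Pool.Agent.H38R2.CG.CC6

/-!
# SWJ: Siegel-Walfisz for sums of Jacobi symbols over primes `1` modulo `W`

(helper157, for the project of helper676.)
-/

set_option autoImplicit false

namespace Pool.Agent.Y157.SH

open Finset Filter Topology Pool.Agent.Y676 Pool.Agent.H262R3.Lk.SWQ

/-- partial summation -/
theorem abel_bound (z N : ℕ) (hz : 2 ≤ z) (hzN : z ≤ N) (a : ℕ → ℂ) (K : ℝ)
    (hK : ∀ n, z ≤ n → n ≤ N → ‖∑ k ∈ Icc 1 n, a k‖ ≤ K) :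
    ‖∑ n ∈ Ioc z N, a n * (((1 / Real.log n : ℝ)) : ℂ)‖ ≤ 2 * K / Real.log z := by
  have hlog : ∀ n : ℕ, z ≤ n → 0 < Real.log n := by
    intro n hn
    apply Real.log_pos
    have : (2 : ℝ) ≤ n := by exact_mod_cast hz.trans hn
    linarith
  rw [abel z a (fun n => 1 / Real.log n) N hzN]
  have hK0 : 0 ≤ K := (norm_nonneg _).trans (hK z le_rfl hzN)
  have h1 : ‖(∑ k ∈ Icc 1 N, a k) * (((1 / Real.log N : ℝ)) : ℂ)‖ ≤ K * (1 / Real.log N) := by
    rw [norm_mul, Complex.norm_real, Real.norm_of_nonneg (one_div_pos.2 (hlog N hzN)).le]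
    exact mul_le_mul_of_nonneg_right (hK N hzN le_rfl) (one_div_pos.2 (hlog N hzN)).le
  have h2 : ‖(∑ k ∈ Icc 1 z, a k) * (((1 / Real.log z : ℝ)) : ℂ)‖ ≤ K * (1 / Real.log z) := by
    rw [norm_mul, Complex.norm_real, Real.norm_of_nonneg (one_div_pos.2 (hlog z le_rfl)).le]
    exact mul_le_mul_of_nonneg_right (hK z le_rfl hzN) (one_div_pos.2 (hlog z le_rfl)).le
  have hmono : ∀ n ∈ Ico z N, 0 ≤ 1 / Real.log n - 1 / Real.log ((n + 1 : ℕ) : ℝ) := by
    intro n hn
    rw [mem_Ico] at hn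
    rw [sub_nonneg]
    apply one_div_le_one_div_of_le (hlog n hn.1)
    apply Real.log_le_log
    · have : 2 ≤ n := hz.trans hn.1
      have : (2 : ℝ) ≤ n := by exact_mod_cast this
      linarith
    · push_cast
      linarith
  have h3 : ‖∑ n ∈ Ico z N, (∑ k ∈ Icc 1 n, a k) *
      ((1 / Real.log n - 1 / Real.log ((n + 1 : ℕ) : ℝ) : ℝ) : ℂ)‖ ≤
      K * (1 / Real.log z - 1 / Real.log N) := by
    refine (norm_sum_le _ _).trans ?_
    calc ∑ n ∈ Ico z N, ‖(∑ k ∈ Icc 1 n, a k) *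
          ((1 / Real.log n - 1 / Real.log ((n + 1 : ℕ) : ℝ) : ℝ) : ℂ)‖
        ≤ ∑ n ∈ Ico z N, K * (1 / Real.log n - 1 / Real.log ((n + 1 : ℕ) : ℝ)) := by
          refine sum_le_sum fun n hn => ?_
          rw [norm_mul, Complex.norm_real, Real.norm_of_nonneg (hmono n hn)]
          have hn' := mem_Ico.1 hn
          exact mul_le_mul_of_nonneg_right (hK n hn'.1 hn'.2.le) (hmono n hn)
      _ = K * (1 / Real.log z - 1 / Real.log N) := by
          rw [← mul_sum]
          congr 1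
          exact sum_Ico_sub_of_antitone' z N hzN
  refine (norm_add_le _ _).trans ?_
  refine (add_le_add (norm_sub_le _ _) le_rfl).trans ?_
  have h4 : 2 * K / Real.log z = K * (1 / Real.log N) + K * (1 / Real.log z) +
      K * (1 / Real.log z - 1 / Real.log N) := by ring
  rw [h4]
  exact add_le_add (add_le_add h1 h2) h3
where
  sum_Ico_sub_of_antitone' (z N : ℕ) (h : z ≤ N) :
      ∑ n ∈ Ico z N, (1 / Real.log n - 1 / Real.log ((n + 1 : ℕ) : ℝ)) =
        1 / Real.log z - 1 / Real.log N := by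
    induction N, h using Nat.le_induction with
    | base => simp
    | succ N hN ih =>
      rw [sum_Ico_succ_top hN, ih]
      ring

/-- the sum of a primitive character over the primes up to `n` -/
theorem prime_sum (A B : ℕ) : ∃ n₁ : ℕ, ∀ n : ℕ, n₁ ≤ n → ∀ q : ℕ, 1 < q →
    (q : ℝ) ≤ (Real.log n) ^ B → ∀ χ : DirichletCharacter ℂ q, χ.IsPrimitive →
      ‖∑ p ∈ (Icc 1 n).filter Nat.Prime, χ (p : ZMod q)‖ ≤ n / (Real.log n) ^ A := by
  obtain ⟨n0, hn0⟩ := Pool.Agent.W762.EC.SSA.SS_bound (A + 1) (B + 1)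
  obtain ⟨x2, hx2⟩ := Pool.Agent.W762.EC.SSA.growth (A + 1)
  have tl : Tendsto (fun n : ℕ => Real.log (n : ℝ)) atTop atTop :=
    Real.tendsto_log_atTop.comp tendsto_natCast_atTop_atTop
  have ts : Tendsto (fun n : ℕ => Nat.sqrt n) atTop atTop := by
    rw [tendsto_atTop]
    intro b
    filter_upwards [eventually_ge_atTop (b * b)] with n hn
    exact Nat.le_sqrt.2 hn
  have hev := (ts.eventually_ge_atTop (max n0 4)).and
    ((tendsto_natCast_atTop_atTop.eventually_ge_atTop x2).and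
    ((tl.eventually_ge_atTop (4 ^ (B + 1) : ℝ)).and
    ((tl.eventually_ge_atTop (48 * 4 ^ (A + 1) : ℝ)).and (tl.eventually_ge_atTop (4 : ℝ)))))
  obtain ⟨n1, hn1⟩ := eventually_atTop.1 hev
  refine ⟨n1, fun n hn q hq hqB χ hχ => ?_⟩
  obtain ⟨c1, c2, c3, c4, c5⟩ := hn1 n hn
  have hzn0 : n0 ≤ Nat.sqrt n := (le_max_left _ _).trans c1
  have hz4 : 4 ≤ Nat.sqrt n := (le_max_right _ _).trans c1
  set z := Nat.sqrt n with hz
  set L := Real.log n with hL
  have hL0 : 0 < L := by linarith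
  have hnr : (0 : ℝ) < n := by
    have h1 : 0 < n := by
      by_contra h
      have : n = 0 := by omega
      rw [this] at hz
      simp at hz
      omega
    exact_mod_cast h1
  have hzn : z ≤ n := Nat.sqrt_le_self n
  -- `log k ≥ L / 4` for `k ≥ z`
  have hlogz : ∀ k : ℕ, z ≤ k → L / 4 ≤ Real.log k := by
    intro k hk
    have h1 : n < (z + 1) * (z + 1) := Nat.lt_succ_sqrt n
    have h2 : z + 1 ≤ z * z := by nlinarith
    have h3 : n ≤ (z * z) * (z * z) := by
      have := Nat.mul_le_mul h2 h2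
      omega
    have h4 : (n : ℝ) ≤ (k : ℝ) ^ 4 := by
      have h5 : (z * z) * (z * z) ≤ k ^ 4 := by
        have : (z * z) * (z * z) = z ^ 4 := by ring
        rw [this]
        exact Nat.pow_le_pow_left hk 4
      exact_mod_cast h3.trans h5
    have h6 := Real.log_le_log hnr h4
    rw [Real.log_pow] at h6
    push_cast at h6
    rw [← hL] at h6
    linarith
  have hSS : ∀ k, z ≤ k → k ≤ n → ‖∑ j ∈ Icc 1 k, av χ j‖ ≤ 12 * 4 ^ (A + 1) * n / L ^ (A + 1) := by
    intro k hk hkn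
    have hlk := hlogz k hk
    have h1 : (q : ℝ) ≤ (Real.log k) ^ (B + 1) := by
      calc (q : ℝ) ≤ L ^ B := hqB
        _ ≤ (L / 4) ^ (B + 1) := by
            rw [div_pow, le_div_iff₀ (by positivity), pow_succ L B]
            gcongr
        _ ≤ (Real.log k) ^ (B + 1) := by gcongr
    have h2 := hn0 k (hzn0.trans hk) q hq h1 χ hχ
    have h3 : (∑ j ∈ Icc 1 k, av χ j) = SS χ k := rfl
    rw [h3]
    refine h2.trans ?_
    have h4 : (L / 4) ^ (A + 1) ≤ (Real.log k) ^ (A + 1) := by gcongr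
    have h5 : (0 : ℝ) < (L / 4) ^ (A + 1) := by positivity
    have hkr : (k : ℝ) ≤ n := by exact_mod_cast hkn
    calc 12 * (k : ℝ) / (Real.log k) ^ (A + 1) ≤ 12 * n / (L / 4) ^ (A + 1) := by gcongr
      _ = 12 * 4 ^ (A + 1) * n / L ^ (A + 1) := by
          rw [div_pow]
          field_simp
  have hab := abel_bound z n (by omega) hzn (av χ) _ hSS
  -- split the sum
  have hsplit : ∑ p ∈ (Icc 1 n).filter Nat.Prime, χ (p : ZMod q) =
      ∑ p ∈ (Icc 1 z).filter Nat.Prime, χ (p : ZMod q) +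
        ∑ k ∈ Ioc z n, av χ k * (((1 / Real.log k : ℝ)) : ℂ) := by
    have h1 : ∑ k ∈ Ioc z n, av χ k * (((1 / Real.log k : ℝ)) : ℂ) =
        ∑ p ∈ (Ioc z n).filter Nat.Prime, χ (p : ZMod q) := by
      rw [sum_filter]
      refine sum_congr rfl fun k hk => ?_
      unfold av
      by_cases hp : k.Prime
      · rw [if_pos hp, if_pos hp, mul_assoc]
        have h2 : (Real.log k : ℝ) ≠ 0 := by
          rw [mem_Ioc] at hk
          have := hlogz k hk.1.le
          linarith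
        rw [← Complex.ofReal_mul, mul_one_div_cancel h2, Complex.ofReal_one, mul_one]
      · rw [if_neg hp, if_neg hp, zero_mul]
    rw [h1, ← sum_union]
    · congr 1
      rw [← filter_union]
      congr 1
      ext k
      simp only [mem_Icc, mem_union, mem_Ioc]
      omega
    · rw [disjoint_left]
      intro k
      simp only [mem_filter, mem_Icc, mem_Ioc]
      omega
  rw [hsplit]
  refine (norm_add_le _ _).trans ?_
  have h1 : ‖∑ p ∈ (Icc 1 z).filter Nat.Prime, χ (p : ZMod q)‖ ≤ Real.sqrt n := by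
    refine (norm_sum_le _ _).trans ?_
    calc ∑ p ∈ (Icc 1 z).filter Nat.Prime, ‖χ (p : ZMod q)‖
        ≤ ∑ _p ∈ (Icc 1 z).filter Nat.Prime, (1 : ℝ) :=
          sum_le_sum fun p _ => DirichletCharacter.norm_le_one χ _
      _ = (((Icc 1 z).filter Nat.Prime).card : ℝ) := by simp
      _ ≤ ((Icc 1 z).card : ℝ) := by exact_mod_cast card_filter_le _ _
      _ = z := by rw [Nat.card_Icc, Nat.add_sub_cancel]
      _ ≤ Real.sqrt n := Real.nat_sqrt_le_real_sqrt
  have h2 : Real.sqrt n ≤ n / (2 * L ^ A) := by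
    rw [le_div_iff₀ (by positivity)]
    have h3 := hx2 n c2
    rw [← hL, pow_succ] at h3
    have h4 : (n : ℝ) = Real.sqrt n * Real.sqrt n := (Real.mul_self_sqrt hnr.le).symm
    have h5 : 2 * L ^ A ≤ L ^ A * L := by
      have : (0 : ℝ) < L ^ A := by positivity
      nlinarith
    calc Real.sqrt n * (2 * L ^ A) ≤ Real.sqrt n * Real.sqrt n := by
          have := h5.trans h3
          gcongr
      _ = n := h4.symm
  have h3 : 2 * (12 * 4 ^ (A + 1) * (n : ℝ) / L ^ (A + 1)) / Real.log z ≤ n / (2 * L ^ A) := by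
    have hlz := hlogz z le_rfl
    have h4 : 1 ≤ Real.log z := by linarith
    have h5 : 2 * (12 * 4 ^ (A + 1) * (n : ℝ) / L ^ (A + 1)) / Real.log z ≤
        2 * (12 * 4 ^ (A + 1) * (n : ℝ) / L ^ (A + 1)) := by
      apply div_le_self (by positivity) h4
    refine h5.trans ?_
    rw [le_div_iff₀ (by positivity), pow_succ L A]
    have h6 : 2 * (12 * 4 ^ (A + 1) * (n : ℝ) / (L ^ A * L)) * (2 * L ^ A) =
        (48 * 4 ^ (A + 1)) * n / L := by
      field_simp
      ring
    rw [h6, div_le_iff₀ hL0]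
    rw [mul_comm]
    gcongr
  have h4 : (n : ℝ) / L ^ A = n / (2 * L ^ A) + n / (2 * L ^ A) := by
    field_simp
    ring
  rw [h4]
  exact add_le_add (h1.trans h2) (hab.trans h3)

/-- the primes `1` modulo `W` are detected by characters -/
theorem detect (W Q D : ℕ) (hW : 0 < W) :
    ((W.totient : ℕ) : ℂ) * ((SJ W Q D : ℤ) : ℂ) =
      haveI : NeZero W := ⟨hW.ne'⟩
      ∑ ψ : DirichletCharacter ℂ W, ∑ p ∈ (Icc 1 Q).filter Nat.Prime,
        ψ (p : ZMod W) * ((jacobiSym (p : ℤ) D : ℤ) : ℂ) := by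
  have : NeZero W := ⟨hW.ne'⟩
  rw [sum_comm]
  simp_rw [← sum_mul]
  have h1 : ∀ p ∈ (Icc 1 Q).filter Nat.Prime, (∑ ψ : DirichletCharacter ℂ W, ψ (p : ZMod W)) *
      ((jacobiSym (p : ℤ) D : ℤ) : ℂ) = if p % W = 1 % W then
        ((W.totient : ℕ) : ℂ) * ((jacobiSym (p : ℤ) D : ℤ) : ℂ) else 0 := by
    intro p _
    rw [DirichletCharacter.sum_characters_eq]
    have h2 : ((p : ZMod W) = 1) ↔ p % W = 1 % W := by
      rw [← Nat.cast_one, ZMod.natCast_eq_natCast_iff]
      exact Iff.rfl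
    by_cases h : p % W = 1 % W
    · rw [if_pos (h2.2 h), if_pos h]
    · rw [if_neg (fun h' => h (h2.1 h')), if_neg h, zero_mul]
  rw [sum_congr rfl h1, ← sum_filter, filter_filter, ← mul_sum]
  unfold SJ PQ
  push_cast
  rfl

theorem swj : S_SWJ := by
  intro W A B h8 hW
  have : NeZero W := ⟨hW.ne'⟩
  obtain ⟨n1, hn1⟩ := prime_sum (B + 1) (A + 1)
  have tl : Tendsto (fun n : ℕ => Real.log (n : ℝ)) atTop atTop :=
    Real.tendsto_log_atTop.comp tendsto_natCast_atTop_atTop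
  obtain ⟨x2, hx2⟩ := Pool.Agent.W762.EC.SSA.growth (A + B + 2)
  have hev := (eventually_ge_atTop n1).and
    ((tendsto_natCast_atTop_atTop.eventually_ge_atTop x2).and
    ((tl.eventually_ge_atTop (W : ℝ)).and ((tl.eventually_ge_atTop (4 : ℝ)).and
      (eventually_ge_atTop 2))))
  obtain ⟨Q0, hQ0⟩ := eventually_atTop.1 hev
  refine ⟨Q0, fun Q hQ D hD2 hDA hodd hsq hcop => ?_⟩
  obtain ⟨c1, c2, c3, c4, c5⟩ := hQ0 Q hQ
  set L := Real.log Q with hL
  have hL0 : 0 < L := by linarith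
  have hWD : ((W * D : ℕ) : ℝ) ≤ L ^ (A + 1) := by
    push_cast
    rw [pow_succ, mul_comm]
    gcongr
  have hQr : (2 : ℝ) ≤ Q := by exact_mod_cast c5
  -- one character
  have hψ : ∀ ψ : DirichletCharacter ℂ W, ‖∑ p ∈ (Icc 1 Q).filter Nat.Prime,
        ψ (p : ZMod W) * ((jacobiSym (p : ℤ) D : ℤ) : ℂ)‖ ≤ Q / L ^ (B + 1) + 2 * L ^ (A + 1) := by
    intro ψ
    have hc2 : D.Coprime (2 * W) := by
      apply Nat.Coprime.mul_right
      · exact (Nat.coprime_two_right).2 hodd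
      · exact hcop
    obtain ⟨q, χ, hq1, hqle, hprim, hχ⟩ := Pool.Agent.H38R2.CG.CC6h.exists_char W D hW (by omega)
      hsq hc2 ψ (fun h => by omega)
    have hqB : (q : ℝ) ≤ L ^ (A + 1) := by
      have : (q : ℝ) ≤ ((W * D : ℕ) : ℝ) := by exact_mod_cast hqle
      linarith
    have h1 := hn1 Q c1 q hq1 hqB χ hprim
    have h2 : ∑ p ∈ (Icc 1 Q).filter Nat.Prime, ψ (p : ZMod W) * ((jacobiSym (p : ℤ) D : ℤ) : ℂ) =
        ∑ p ∈ (Icc 1 Q).filter Nat.Prime, χ (p : ZMod q) +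
        ∑ p ∈ (Icc 1 Q).filter Nat.Prime, (ψ (p : ZMod W) * ((jacobiSym (p : ℤ) D : ℤ) : ℂ) -
          χ (p : ZMod q)) := by
      rw [sum_sub_distrib]
      ring
    have h3 : ‖∑ p ∈ (Icc 1 Q).filter Nat.Prime, (ψ (p : ZMod W) *
        ((jacobiSym (p : ℤ) D : ℤ) : ℂ) - χ (p : ZMod q))‖ ≤ 2 * L ^ (A + 1) := by
      have hsub : ∑ p ∈ (Icc 1 Q).filter Nat.Prime, (ψ (p : ZMod W) *
          ((jacobiSym (p : ℤ) D : ℤ) : ℂ) - χ (p : ZMod q)) =
          ∑ p ∈ ((Icc 1 Q).filter Nat.Prime).filter (fun p => p ≤ W * D), (ψ (p : ZMod W) *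
          ((jacobiSym (p : ℤ) D : ℤ) : ℂ) - χ (p : ZMod q)) := by
        rw [← sum_filter_add_sum_filter_not ((Icc 1 Q).filter Nat.Prime) (fun p => p ≤ W * D)]
        rw [add_eq_left]
        apply sum_eq_zero
        intro p hp
        rw [mem_filter, mem_filter] at hp
        rw [hχ p hp.1.2 (by omega), sub_self]
      rw [hsub]
      refine (norm_sum_le _ _).trans ?_
      have hone : ∀ p : ℕ, ‖ψ (p : ZMod W) * ((jacobiSym (p : ℤ) D : ℤ) : ℂ) - χ (p : ZMod q)‖ ≤ 2 := by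
        intro p
        refine (norm_sub_le _ _).trans ?_
        have h4 : ‖ψ (p : ZMod W) * ((jacobiSym (p : ℤ) D : ℤ) : ℂ)‖ ≤ 1 := by
          rw [norm_mul]
          have h5 := DirichletCharacter.norm_le_one ψ (p : ZMod W)
          have h6 : ‖((jacobiSym (p : ℤ) D : ℤ) : ℂ)‖ ≤ 1 := by
            rcases jacobiSym.trichotomy (p : ℤ) D with h | h | h <;> rw [h] <;> simp
          calc _ ≤ (1 : ℝ) * 1 := mul_le_mul h5 h6 (norm_nonneg _) zero_le_one
            _ = 1 := one_mul 1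
        have h5 := DirichletCharacter.norm_le_one χ (p : ZMod q)
        linarith
      refine (sum_le_sum fun p _ => hone p).trans ?_
      rw [sum_const, nsmul_eq_mul]
      have hcard : (((Icc 1 Q).filter Nat.Prime).filter (fun p => p ≤ W * D)).card ≤ W * D := by
        calc _ ≤ (Icc 1 (W * D)).card := by
              apply card_le_card
              intro p hp
              rw [mem_filter, mem_filter, mem_Icc] at hp
              rw [mem_Icc]
              omega
          _ = W * D := by rw [Nat.card_Icc, Nat.add_sub_cancel]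
      have hcr : ((((Icc 1 Q).filter Nat.Prime).filter (fun p => p ≤ W * D)).card : ℝ) ≤
          ((W * D : ℕ) : ℝ) := by exact_mod_cast hcard
      linarith
    rw [h2]
    exact (norm_add_le _ _).trans (add_le_add h1 h3)
  have hdet := detect W Q D hW
  have hφ : 0 < W.totient := Nat.totient_pos.2 hW
  have hφr : (0 : ℝ) < W.totient := by exact_mod_cast hφ
  have hcardψ : (Finset.univ : Finset (DirichletCharacter ℂ W)).card = W.totient := by
    rw [card_univ, ← Nat.card_eq_fintype_card]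
    exact DirichletCharacter.card_eq_totient_of_hasEnoughRootsOfUnity ℂ W
  have hmain : (W.totient : ℝ) * |(SJ W Q D : ℝ)| ≤
      (W.totient : ℝ) * (Q / L ^ (B + 1) + 2 * L ^ (A + 1)) := by
    have h1 : (W.totient : ℝ) * |(SJ W Q D : ℝ)| =
        ‖((W.totient : ℕ) : ℂ) * ((SJ W Q D : ℤ) : ℂ)‖ := by
      rw [norm_mul, Complex.norm_natCast]
      congr 1
      rw [← Complex.ofReal_intCast, Complex.norm_real, Real.norm_eq_abs]
    rw [h1, hdet]
    refine (norm_sum_le _ _).trans ((sum_le_sum fun ψ _ => hψ ψ).trans (le_of_eq ?_))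
    rw [sum_const, hcardψ, nsmul_eq_mul]
  have hfin := le_of_mul_le_mul_left hmain hφr
  have hLB : 0 < L ^ B := by positivity
  have h5 : L ^ B * |(SJ W Q D : ℝ)| ≤ L ^ B * (Q / L ^ (B + 1) + 2 * L ^ (A + 1)) := by gcongr
  refine h5.trans ?_
  have h6 : L ^ B * (Q / L ^ (B + 1)) = Q / L := by
    rw [pow_succ]
    field_simp
  have h7 : (Q : ℝ) / L ≤ Q / 4 := by gcongr
  have h8 : L ^ B * (2 * L ^ (A + 1)) ≤ Q / 2 := by
    have h9 := hx2 Q c2
    rw [← hL] at h9
    have h10 : L ^ (A + B + 2) = L ^ B * L ^ (A + 1) * L := by ring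
    rw [h10] at h9
    have h11 : 4 * (L ^ B * L ^ (A + 1)) ≤ L ^ B * L ^ (A + 1) * L := by
      have : (0 : ℝ) < L ^ B * L ^ (A + 1) := by positivity
      nlinarith
    have h12 : Real.sqrt Q ≤ Q := by
      rw [Real.sqrt_le_left (by linarith)]
      nlinarith
    linarith
  rw [mul_add, h6]
  have : (0 : ℝ) < Q := by linarith
  linarith

end Pool.Agent.Y157.SH
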