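import Pool.Agent.Y676.Defs

/-!
# CNT: the number of tuples whose product of differences is divisible by `D`

(helper157, for the project of helper676.)
-/

set_option autoImplicit false

namespace Pool.Agent.Y157.SH

open Finset Pool.Agent.Y676

/-- the number of nonzero multiples of `d` in `[-T, T]` -/
theorem mult_count (d T : ℕ) (hd : 0 < d) :
    (((Icc (-(T : ℤ)) T).filter (fun a => a ≠ 0 ∧ (d : ℤ) ∣ a)).card : ℝ) ≤ 2 * T / d := by
  have hsub : (Icc (-(T : ℤ)) T).filter (fun a => a ≠ 0 ∧ (d : ℤ) ∣ a) ⊆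
      ((Icc 1 (T / d)).image (fun n : ℕ => (d : ℤ) * n)) ∪
        ((Icc 1 (T / d)).image (fun n : ℕ => -((d : ℤ) * n))) := by
    intro a ha
    rw [mem_filter, mem_Icc] at ha
    obtain ⟨⟨h1, h2⟩, h3, c, rfl⟩ := ha
    have hc : c ≠ 0 := by
      rintro rfl
      exact h3 (mul_zero _)
    have habs : d * c.natAbs ≤ T := by
      have h4 : |(d : ℤ) * c| ≤ T := abs_le.2 ⟨h1, h2⟩
      rw [abs_mul, Nat.abs_cast, ← Int.natCast_natAbs] at h4
      exact_mod_cast h4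
    have hle : c.natAbs ≤ T / d := by
      rw [Nat.le_div_iff_mul_le hd, mul_comm]
      exact habs
    have hpos : 1 ≤ c.natAbs := Int.natAbs_pos.2 hc
    rw [mem_union, mem_image, mem_image]
    rcases le_total 0 c with h | h
    · left
      refine ⟨c.natAbs, mem_Icc.2 ⟨hpos, hle⟩, ?_⟩
      rw [Int.natCast_natAbs, abs_of_nonneg h]
    · right
      refine ⟨c.natAbs, mem_Icc.2 ⟨hpos, hle⟩, ?_⟩
      rw [Int.natCast_natAbs, abs_of_nonpos h]
      ring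
  have h1 : ((Icc (-(T : ℤ)) T).filter (fun a => a ≠ 0 ∧ (d : ℤ) ∣ a)).card ≤ 2 * (T / d) := by
    refine (card_le_card hsub).trans ((card_union_le _ _).trans ?_)
    have h2 := card_image_le (s := Icc 1 (T / d)) (f := fun n : ℕ => (d : ℤ) * n)
    have h3 := card_image_le (s := Icc 1 (T / d)) (f := fun n : ℕ => -((d : ℤ) * n))
    rw [Nat.card_Icc, Nat.add_sub_cancel] at h2 h3
    omega
  have h2 : ((T / d : ℕ) : ℝ) ≤ (T : ℝ) / d := Nat.cast_div_le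
  calc (((Icc (-(T : ℤ)) T).filter (fun a => a ≠ 0 ∧ (d : ℤ) ∣ a)).card : ℝ)
      ≤ ((2 * (T / d) : ℕ) : ℝ) := by exact_mod_cast h1
    _ = 2 * ((T / d : ℕ) : ℝ) := by push_cast; ring
    _ ≤ 2 * ((T : ℝ) / d) := by linarith
    _ = 2 * T / d := by ring

/-- pairs with three divisibility conditions -/
noncomputable def PR (X D0 D1 D2 : ℕ) : Finset (ℤ × ℤ) :=
  (Bx X).filter (fun t => (D0 : ℤ) ∣ t.1 ∧ (D1 : ℤ) ∣ t.2 ∧ (D2 : ℤ) ∣ t.1 - t.2)

theorem mem_PR {X D0 D1 D2 : ℕ} {t : ℤ × ℤ} : t ∈ PR X D0 D1 D2 ↔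
    ((-(X : ℤ) ≤ t.1 ∧ t.1 ≤ X) ∧ (-(X : ℤ) ≤ t.2 ∧ t.2 ≤ X)) ∧ (t.1 ≠ 0 ∧ t.2 ≠ 0 ∧ t.1 ≠ t.2) ∧
      ((D0 : ℤ) ∣ t.1 ∧ (D1 : ℤ) ∣ t.2 ∧ (D2 : ℤ) ∣ t.1 - t.2) := by
  unfold PR Bx
  rw [mem_filter, mem_filter, mem_product, mem_Icc, mem_Icc]
  tauto

/-- counting pairs through an injection -/
theorem pair_bound {X D0 D1 D2 d e T T' : ℕ} (hd : 0 < d) (he : 0 < e)
    (φ : ℤ × ℤ → ℤ × ℤ) (hφ : Function.Injective φ)
    (h : ∀ t ∈ PR X D0 D1 D2, ((-(T : ℤ) ≤ (φ t).1 ∧ (φ t).1 ≤ T) ∧ (φ t).1 ≠ 0 ∧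
      (d : ℤ) ∣ (φ t).1) ∧ ((-(T' : ℤ) ≤ (φ t).2 ∧ (φ t).2 ≤ T') ∧ (φ t).2 ≠ 0 ∧
      (e : ℤ) ∣ (φ t).2)) :
    ((PR X D0 D1 D2).card : ℝ) * (d * e) ≤ 4 * T * T' := by
  have h1 : (PR X D0 D1 D2).card ≤
      ((Icc (-(T : ℤ)) T).filter (fun a => a ≠ 0 ∧ (d : ℤ) ∣ a)).card *
      ((Icc (-(T' : ℤ)) T').filter (fun a => a ≠ 0 ∧ (e : ℤ) ∣ a)).card := by
    rw [← card_product]
    refine card_le_card_of_injOn φ ?_ hφ.injOn
    intro t ht
    have h2 := h t ht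
    rw [mem_coe, mem_product, mem_filter, mem_filter, mem_Icc, mem_Icc]
    tauto
  have h2 := mult_count d T hd
  have h3 := mult_count e T' he
  have hd' : (0 : ℝ) < d := by exact_mod_cast hd
  have he' : (0 : ℝ) < e := by exact_mod_cast he
  rw [le_div_iff₀ hd'] at h2
  rw [le_div_iff₀ he'] at h3
  set a := ((Icc (-(T : ℤ)) T).filter (fun a => a ≠ 0 ∧ (d : ℤ) ∣ a)).card
  set b := ((Icc (-(T' : ℤ)) T').filter (fun a => a ≠ 0 ∧ (e : ℤ) ∣ a)).card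
  have h4 : ((PR X D0 D1 D2).card : ℝ) ≤ a * b := by exact_mod_cast h1
  calc ((PR X D0 D1 D2).card : ℝ) * (d * e) ≤ (a * b) * (d * e) := by gcongr
    _ = (a * d) * (b * e) := by ring
    _ ≤ (2 * T) * (2 * T') := by gcongr
    _ = 4 * T * T' := by ring

theorem pr_cube (X D0 D1 D2 : ℕ) (h0 : 0 < D0) (h1 : 0 < D1) (h2 : 0 < D2) :
    ((PR X D0 D1 D2).card : ℝ) ^ 3 * ((D0 * D1 * D2 : ℕ) : ℝ) ^ 2 ≤ (8 * (X : ℝ) ^ 2) ^ 3 := by
  have hN : (0 : ℝ) ≤ ((PR X D0 D1 D2).card : ℝ) := Nat.cast_nonneg _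
  have a1 : ((PR X D0 D1 D2).card : ℝ) * (D0 * D1) ≤ 8 * (X : ℝ) ^ 2 := by
    have h := pair_bound (X := X) (D0 := D0) (D1 := D1) (D2 := D2) (T := X) (T' := X) h0 h1
      id Function.injective_id (by
        intro t ht
        rw [mem_PR] at ht
        simp only [id]
        tauto)
    have hX : (0 : ℝ) ≤ (X : ℝ) ^ 2 := by positivity
    nlinarith
  have a2 : ((PR X D0 D1 D2).card : ℝ) * (D0 * D2) ≤ 8 * (X : ℝ) ^ 2 := by
    have h := pair_bound (X := X) (D0 := D0) (D1 := D1) (D2 := D2) (T := X) (T' := 2 * X) h0 h2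
      (fun t => (t.1, t.1 - t.2)) (by
        rintro ⟨a, b⟩ ⟨c, d⟩ h
        simp only [Prod.mk.injEq] at h
        obtain ⟨rfl, h⟩ := h
        congr 1
        omega) (by
        intro t ht
        rw [mem_PR] at ht
        obtain ⟨⟨⟨b1, b2⟩, b3, b4⟩, ⟨b5, b6, b7⟩, b8, b9, b10⟩ := ht
        refine ⟨⟨⟨b1, b2⟩, b5, b8⟩, ⟨⟨?_, ?_⟩, ?_, b10⟩⟩
        · push_cast
          omega
        · push_cast
          omega
        · exact sub_ne_zero.2 b7)
    push_cast at h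
    nlinarith
  have a3 : ((PR X D0 D1 D2).card : ℝ) * (D1 * D2) ≤ 8 * (X : ℝ) ^ 2 := by
    have h := pair_bound (X := X) (D0 := D0) (D1 := D1) (D2 := D2) (T := X) (T' := 2 * X) h1 h2
      (fun t => (t.2, t.1 - t.2)) (by
        rintro ⟨a, b⟩ ⟨c, d⟩ h
        simp only [Prod.mk.injEq] at h
        obtain ⟨rfl, h⟩ := h
        congr 1
        omega) (by
        intro t ht
        rw [mem_PR] at ht
        obtain ⟨⟨⟨b1, b2⟩, b3, b4⟩, ⟨b5, b6, b7⟩, b8, b9, b10⟩ := ht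
        refine ⟨⟨⟨b3, b4⟩, b6, b9⟩, ⟨⟨?_, ?_⟩, ?_, b10⟩⟩
        · push_cast
          omega
        · push_cast
          omega
        · exact sub_ne_zero.2 b7)
    push_cast at h
    nlinarith
  push_cast
  calc ((PR X D0 D1 D2).card : ℝ) ^ 3 * ((D0 : ℝ) * D1 * D2) ^ 2
      = (((PR X D0 D1 D2).card : ℝ) * (D0 * D1)) * (((PR X D0 D1 D2).card : ℝ) * (D0 * D2)) *
        (((PR X D0 D1 D2).card : ℝ) * (D1 * D2)) := by ring
    _ ≤ (8 * (X : ℝ) ^ 2) * (8 * (X : ℝ) ^ 2) * (8 * (X : ℝ) ^ 2) := by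
        gcongr
    _ = (8 * (X : ℝ) ^ 2) ^ 3 := by ring

/-- `(3k)^ω(D) ≤ C D^(1/6)` -/
theorem omega_pow (m D : ℕ) (hm : 1 ≤ m) (hD : Squarefree D) :
    ((m : ℝ) ^ D.primeFactors.card) ^ 6 ≤ (((m : ℝ) ^ (m ^ 6)) ^ 6) * D := by
  have hm' : (1 : ℝ) ≤ m := by exact_mod_cast hm
  rw [← card_filter_add_card_filter_not (s := D.primeFactors) (fun p => p < m ^ 6), pow_add, mul_pow]
  have h1 : (m : ℝ) ^ (D.primeFactors.filter (fun p => p < m ^ 6)).card ≤ (m : ℝ) ^ (m ^ 6) := by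
    apply pow_le_pow_right₀ hm'
    calc (D.primeFactors.filter (fun p => p < m ^ 6)).card ≤ (range (m ^ 6)).card := by
          apply card_le_card
          intro p hp
          rw [mem_filter] at hp
          exact mem_range.2 hp.2
      _ = m ^ 6 := card_range _
  have h2 : ((m : ℝ) ^ (D.primeFactors.filter (fun p => ¬ p < m ^ 6)).card) ^ 6 ≤ D := by
    rw [← pow_mul, mul_comm, pow_mul, ← prod_const]
    have h3 : ∏ _p ∈ D.primeFactors.filter (fun p => ¬ p < m ^ 6), (m : ℝ) ^ 6 ≤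
        ∏ p ∈ D.primeFactors.filter (fun p => ¬ p < m ^ 6), (p : ℝ) := by
      apply prod_le_prod
      · intro p _
        positivity
      · intro p hp
        rw [mem_filter, not_lt] at hp
        exact_mod_cast hp.2
    refine h3.trans ?_
    have h4 : (∏ p ∈ D.primeFactors.filter (fun p => ¬ p < m ^ 6), p) ∣ D := by
      conv_rhs => rw [← Nat.prod_primeFactors_of_squarefree hD]
      exact prod_dvd_prod_of_subset _ _ _ (filter_subset _ _)
    have h5 := Nat.le_of_dvd (Nat.pos_of_ne_zero hD.ne_zero) h4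
    rw [← Nat.cast_prod]
    exact_mod_cast h5
  gcongr

variable {k : ℕ}

/-- the three linear forms -/
def lf (t : ℤ × ℤ) (j : Fin 3) : ℤ := ![t.1, t.2, t.1 - t.2] j

theorem Nn_eq (t : ℤ × ℤ) : Nn t = ∏ j, (lf t j).natAbs := by
  unfold Nn lf
  rw [Fin.prod_univ_three, Int.natAbs_mul, Int.natAbs_mul]
  rfl

theorem exists_assign {D : ℕ} (t : Fin k → ℤ × ℤ) (h : D ∣ ∏ i, Nn (t i)) :
    ∃ g : D.primeFactors → Fin k × Fin 3, ∀ p : D.primeFactors,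
      (p : ℕ) ∣ (lf (t (g p).1) (g p).2).natAbs := by
  have h1 : ∀ p : D.primeFactors, ∃ ij : Fin k × Fin 3,
      (p : ℕ) ∣ (lf (t ij.1) ij.2).natAbs := by
    rintro ⟨p, hp⟩
    have hpp := Nat.prime_of_mem_primeFactors hp
    have h2 : p ∣ ∏ i, Nn (t i) := (Nat.dvd_of_mem_primeFactors hp).trans h
    obtain ⟨i, -, hi⟩ := (hpp.prime.dvd_finsetProd_iff _).1 h2
    rw [Nn_eq] at hi
    obtain ⟨j, -, hj⟩ := (hpp.prime.dvd_finsetProd_iff _).1 hi
    exact ⟨(i, j), hj⟩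
  choose g hg using h1
  exact ⟨g, hg⟩

/-- the product of the primes assigned to `(i, j)` -/
def DD {D : ℕ} (g : D.primeFactors → Fin k × Fin 3) (ij : Fin k × Fin 3) : ℕ :=
  ∏ p ∈ univ.filter (fun p => g p = ij), (p : ℕ)

theorem DD_pos {D : ℕ} (g : D.primeFactors → Fin k × Fin 3) (ij : Fin k × Fin 3) : 0 < DD g ij :=
  prod_pos fun p _ => (Nat.prime_of_mem_primeFactors p.2).pos

theorem DD_prod {D : ℕ} (hD : Squarefree D) (g : D.primeFactors → Fin k × Fin 3) :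
    ∏ i, (DD g (i, 0) * DD g (i, 1) * DD g (i, 2)) = D := by
  have h1 : ∏ i, (DD g (i, 0) * DD g (i, 1) * DD g (i, 2)) = ∏ ij : Fin k × Fin 3, DD g ij := by
    rw [← univ_product_univ, prod_product]
    refine prod_congr rfl fun i _ => ?_
    rw [Fin.prod_univ_three]
  rw [h1]
  unfold DD
  rw [prod_fiberwise]
  conv_rhs => rw [← Nat.prod_primeFactors_of_squarefree hD]
  exact prod_coe_sort D.primeFactors (fun p => p)

theorem DD_dvd {D : ℕ} (g : D.primeFactors → Fin k × Fin 3) (ij : Fin k × Fin 3) (z : ℤ)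
    (h : ∀ p, g p = ij → (p : ℕ) ∣ z.natAbs) : (DD g ij : ℤ) ∣ z := by
  rw [Int.natCast_dvd]
  unfold DD
  apply Finset.prod_dvd_of_isRelPrime
  · intro p _ q _ hpq
    have hp := Nat.prime_of_mem_primeFactors p.2
    have hq := Nat.prime_of_mem_primeFactors q.2
    have : (p : ℕ) ≠ q := fun h => hpq (Subtype.ext h)
    exact (Nat.coprime_iff_isRelPrime.1 ((Nat.coprime_primes hp hq).2 this))
  · intro p hp
    exact h p (mem_filter.1 hp).2

theorem cnt_aux (k X D : ℕ) (hk : 1 ≤ k) (hD : Squarefree D) :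
    (((Fintype.piFinset (fun _ : Fin k => Bx X)).filter
      (fun t => D ∣ ∏ i, Nn (t i))).card : ℝ) ^ 6 * (D : ℝ) ^ 3 ≤
      ((3 * k : ℕ) ^ ((3 * k) ^ 6) : ℝ) ^ 6 * ((8 * (X : ℝ) ^ 2) ^ k) ^ 6 := by
  classical
  have hDpos : 0 < D := Nat.pos_of_ne_zero hD.ne_zero
  set S := (Fintype.piFinset (fun _ : Fin k => Bx X)).filter (fun t => D ∣ ∏ i, Nn (t i)) with hS
  let T : (D.primeFactors → Fin k × Fin 3) → Finset (Fin k → ℤ × ℤ) := fun g =>
    Fintype.piFinset (fun i : Fin k => PR X (DD g (i, 0)) (DD g (i, 1)) (DD g (i, 2)))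
  have hsub : S ⊆ univ.biUnion T := by
    intro t ht
    rw [hS, mem_filter, Fintype.mem_piFinset] at ht
    obtain ⟨ht1, ht2⟩ := ht
    obtain ⟨g, hg⟩ := exists_assign t ht2
    rw [mem_biUnion]
    refine ⟨g, mem_univ _, ?_⟩
    rw [Fintype.mem_piFinset]
    intro i
    unfold PR
    rw [mem_filter]
    refine ⟨ht1 i, ?_, ?_, ?_⟩
    · refine DD_dvd g (i, 0) _ fun p hp => ?_
      have := hg p
      rw [hp] at this
      exact this
    · refine DD_dvd g (i, 1) _ fun p hp => ?_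
      have := hg p
      rw [hp] at this
      exact this
    · refine DD_dvd g (i, 2) _ fun p hp => ?_
      have := hg p
      rw [hp] at this
      exact this
  have hT : ∀ g, ((T g).card : ℝ) ^ 3 * (D : ℝ) ^ 2 ≤ ((8 * (X : ℝ) ^ 2) ^ k) ^ 3 := by
    intro g
    have h1 : ((T g).card : ℝ) ^ 3 * (D : ℝ) ^ 2 = ∏ i : Fin k,
        (((PR X (DD g (i, 0)) (DD g (i, 1)) (DD g (i, 2))).card : ℝ) ^ 3 *
          ((DD g (i, 0) * DD g (i, 1) * DD g (i, 2) : ℕ) : ℝ) ^ 2) := by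
      rw [prod_mul_distrib, prod_pow, prod_pow, ← Nat.cast_prod, ← Nat.cast_prod, DD_prod hD,
        ← Fintype.card_piFinset]
    rw [h1]
    have h2 : ∏ i : Fin k,
        (((PR X (DD g (i, 0)) (DD g (i, 1)) (DD g (i, 2))).card : ℝ) ^ 3 *
          ((DD g (i, 0) * DD g (i, 1) * DD g (i, 2) : ℕ) : ℝ) ^ 2) ≤
        ∏ _i : Fin k, (8 * (X : ℝ) ^ 2) ^ 3 := by
      apply prod_le_prod
      · intro i _
        positivity
      · intro i _
        exact pr_cube X _ _ _ (DD_pos g _) (DD_pos g _) (DD_pos g _)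
    refine h2.trans (le_of_eq ?_)
    rw [prod_const, card_univ, Fintype.card_fin, ← pow_mul, ← pow_mul, mul_comm 3 k]
  -- the real bound for one `g`
  obtain ⟨M, hM0, hM⟩ : ∃ M : ℝ, 0 ≤ M ∧ M ^ 3 * (D : ℝ) ^ 2 = ((8 * (X : ℝ) ^ 2) ^ k) ^ 3 := by
    refine ⟨(((8 * (X : ℝ) ^ 2) ^ k) ^ 3 / (D : ℝ) ^ 2) ^ ((1 : ℝ) / 3), by positivity, ?_⟩
    have hD2 : (0 : ℝ) < (D : ℝ) ^ 2 := by positivity
    rw [← Real.rpow_natCast, ← Real.rpow_mul (by positivity)]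
    norm_num
    field_simp
  have hTM : ∀ g, ((T g).card : ℝ) ≤ M := by
    intro g
    have h1 := hT g
    rw [← hM] at h1
    have hD2 : (0 : ℝ) < (D : ℝ) ^ 2 := by positivity
    have h2 := le_of_mul_le_mul_right h1 hD2
    exact le_of_pow_le_pow_left₀ (by norm_num) hM0 h2
  have hcard : (S.card : ℝ) ≤ ((3 * k : ℕ) : ℝ) ^ D.primeFactors.card * M := by
    have h1 : (S.card : ℝ) ≤ ∑ g, ((T g).card : ℝ) := by
      have := (card_le_card hsub).trans card_biUnion_le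
      exact_mod_cast this
    refine h1.trans ((sum_le_sum fun g _ => hTM g).trans (le_of_eq ?_))
    rw [sum_const, card_univ, Fintype.card_fun, Fintype.card_prod, Fintype.card_fin,
      Fintype.card_fin, Fintype.card_coe, nsmul_eq_mul]
    push_cast
    ring
  have hom := omega_pow (3 * k) D (by omega) hD
  have hMM : M ^ 6 * (D : ℝ) ^ 4 = ((8 * (X : ℝ) ^ 2) ^ k) ^ 6 := by
    have : M ^ 6 * (D : ℝ) ^ 4 = (M ^ 3 * (D : ℝ) ^ 2) ^ 2 := by ring
    rw [this, hM]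
    ring
  have hD1 : (0 : ℝ) < D := by exact_mod_cast hDpos
  have h6 : (S.card : ℝ) ^ 6 * (D : ℝ) ^ 4 ≤
      (((3 * k : ℕ) ^ ((3 * k) ^ 6) : ℝ) ^ 6 * ((8 * (X : ℝ) ^ 2) ^ k) ^ 6) * D := by
    calc (S.card : ℝ) ^ 6 * (D : ℝ) ^ 4
        ≤ (((3 * k : ℕ) : ℝ) ^ D.primeFactors.card * M) ^ 6 * (D : ℝ) ^ 4 := by gcongr
      _ = (((3 * k : ℕ) : ℝ) ^ D.primeFactors.card) ^ 6 * (M ^ 6 * (D : ℝ) ^ 4) := by ring
      _ ≤ ((((3 * k : ℕ) : ℝ) ^ ((3 * k) ^ 6)) ^ 6 * D) * (M ^ 6 * (D : ℝ) ^ 4) := by gcongr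
      _ = _ := by rw [hMM]; ring
  have h7 : (S.card : ℝ) ^ 6 * (D : ℝ) ^ 4 = ((S.card : ℝ) ^ 6 * (D : ℝ) ^ 3) * D := by ring
  rw [h7] at h6
  exact le_of_mul_le_mul_right h6 hD1

theorem cnt : S_CNT := by
  intro k
  rcases Nat.eq_zero_or_pos k with rfl | hk
  · refine ⟨1, zero_le_one, fun X D _ hD _ => ?_⟩
    rcases Nat.lt_or_ge 1 D with h | h
    · have h1 : ((Fintype.piFinset (fun _ : Fin 0 => Bx X)).filter
          (fun t => D ∣ ∏ i, Nn (t i))) = ∅ := by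
        apply filter_eq_empty_iff.2
        intro t _ h2
        rw [Finset.univ_eq_empty, prod_empty, Nat.dvd_one] at h2
        omega
      rw [h1, card_empty, Nat.cast_zero]
      positivity
    · have : D = 1 := by omega
      subst this
      have h1 : ((Fintype.piFinset (fun _ : Fin 0 => Bx X)).filter
          (fun t => 1 ∣ ∏ i, Nn (t i))).card ≤ 1 := by
        refine (card_filter_le _ _).trans ?_
        rw [Fintype.card_piFinset]
        simp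
      simp only [Nat.cast_one, Real.sqrt_one, div_one, mul_zero, pow_zero, mul_one]
      exact_mod_cast h1
  · refine ⟨((3 * k : ℕ) ^ ((3 * k) ^ 6) : ℝ) * 8 ^ k, by positivity, fun X D hX hD hsq => ?_⟩
    have h := cnt_aux k X D hk hsq
    have hD1 : (0 : ℝ) < D := by exact_mod_cast hD
    rw [le_div_iff₀ (Real.sqrt_pos.2 hD1)]
    refine le_of_pow_le_pow_left₀ (n := 6) (by norm_num) (by positivity) ?_
    rw [mul_pow]
    have h1 : Real.sqrt D ^ 6 = (D : ℝ) ^ 3 := by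
      have : Real.sqrt (D : ℝ) ^ 6 = (Real.sqrt D ^ 2) ^ 3 := by ring
      rw [this, Real.sq_sqrt hD1.le]
    rw [h1]
    refine h.trans (le_of_eq ?_)
    rw [mul_pow (8 : ℝ), ← pow_mul (X : ℝ)]
    ring

end Pool.Agent.Y157.SH
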