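import Pool.Agent.Y676.Defs

/-!
# EQD: few bad moduli

(helper157, for the project of helper676.)
-/

set_option autoImplicit false

namespace Pool.Agent.Y157.SH

open Finset Pool.Agent.Y676

/-- the moduli in a block -/
noncomputable def blk (j : ℕ) : Finset ℕ :=
  (Icc 1 (256 ^ (j + 1))).filter (fun D => (Odd D ∧ Squarefree D) ∧ 256 ^ j < D)

theorem blk_sub (j : ℕ) : blk j ⊆
    (Icc 1 (256 ^ (j + 1))).filter (fun D => Odd D ∧ Squarefree D) := by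
  intro D hD
  unfold blk at hD
  rw [mem_filter] at hD ⊢
  exact ⟨hD.1, hD.2.1⟩

/-- Chebyshev's inequality with the large sieve -/
theorem cheb (h1 : S_LSM) (W Q m j : ℕ) (h8 : 8 ∣ W) (hW : 0 < W) (S : Finset ℕ) (hS : S ⊆ blk j)
    (y : ℝ) (hy : 0 ≤ y) (hb : ∀ D ∈ S, y ≤ |(SJ W Q D : ℝ)|) :
    (S.card : ℝ) * y ^ (2 * m) ≤
      6 * ((Q : ℝ) ^ m + 64 * ((256 : ℝ) ^ (j + 1)) ^ 2) * (m.factorial * (Q : ℝ) ^ m) := by
  have h2 := h1 W Q (256 ^ (j + 1)) m h8 hW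
  push_cast at h2
  refine le_trans ?_ h2
  calc (S.card : ℝ) * y ^ (2 * m) = ∑ _D ∈ S, y ^ (2 * m) := by
        rw [sum_const, nsmul_eq_mul]
    _ ≤ ∑ D ∈ S, |(SJ W Q D : ℝ)| ^ (2 * m) :=
        sum_le_sum fun D hD => pow_le_pow_left₀ hy (hb D hD) _
    _ ≤ _ := by
        apply sum_le_sum_of_subset_of_nonneg (hS.trans (blk_sub j))
        intro D _ _
        positivity

theorem block1 (h1 : S_LSM) (W Q B j : ℕ) (h8 : 8 ∣ W) (hW : 0 < W) (hQ : 2 ≤ Q) (S : Finset ℕ)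
    (hS : S ⊆ blk j) (hS2 : ∀ D ∈ S, D ^ 2 ≤ Q ∧ (Q : ℝ) < (Real.log Q) ^ B * |(SJ W Q D : ℝ)|) :
    (S.card : ℝ) ≤ 30000000 * (Real.log Q) ^ (2 * B) := by
  have hQ1 : (1 : ℝ) < Q := by exact_mod_cast hQ
  have hlog : 0 < Real.log Q := Real.log_pos hQ1
  rcases S.eq_empty_or_nonempty with rfl | ⟨D, hD⟩
  · rw [card_empty, Nat.cast_zero]
    positivity
  have hZ : ((256 : ℝ) ^ (j + 1)) ^ 2 ≤ 65536 * Q := by
    have h3 : 256 ^ j < D := by
      have := hS hD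
      unfold blk at this
      rw [mem_filter] at this
      exact this.2.2
    have h4 := (hS2 D hD).1
    have h5 : ((256 : ℕ) ^ j) ^ 2 ≤ Q := (Nat.pow_le_pow_left h3.le 2).trans h4
    have h6 : (((256 : ℝ) ^ j) ^ 2) ≤ Q := by exact_mod_cast h5
    have h7 : ((256 : ℝ) ^ (j + 1)) ^ 2 = 65536 * ((256 : ℝ) ^ j) ^ 2 := by ring
    rw [h7]
    linarith
  have hlB : 0 < (Real.log Q) ^ B := by positivity
  have h3 := cheb h1 W Q 1 j h8 hW S hS (Q / (Real.log Q) ^ B) (by positivity) (by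
    intro D hD
    rw [div_le_iff₀ hlB, mul_comm]
    exact (hS2 D hD).2.le)
  rw [mul_one, pow_one, Nat.factorial_one, Nat.cast_one, one_mul, div_pow, ← pow_mul,
    mul_comm B 2, ← mul_div_assoc, div_le_iff₀ (by positivity)] at h3
  have hQQ : (0 : ℝ) < (Q : ℝ) ^ 2 := by positivity
  refine le_of_mul_le_mul_right (a := (Q : ℝ) ^ 2) (h3.trans ?_) hQQ
  have h4 : 6 * ((Q : ℝ) + 64 * ((256 : ℝ) ^ (j + 1)) ^ 2) * Q ≤ 30000000 * (Q : ℝ) ^ 2 := by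
    nlinarith
  have h5 : (0 : ℝ) ≤ (Real.log Q) ^ (2 * B) := by positivity
  nlinarith

theorem block2 (h1 : S_LSM) (W Q K M X j : ℕ) (L : ℝ) (h8 : 8 ∣ W) (hW : 0 < W)
    (hX : 2 ≤ X) (hL : L = Real.log X) (hL2 : 2 ≤ L)
    (hQL : L ^ (32 * (2 * K + 1) + 1) ≤ 2 * Q) (hQM : 2 * (2 * M + 22) ≤ Real.log Q)
    (S : Finset ℕ) (hS : S ⊆ blk j) (hS2 : ∀ D ∈ S, D ≤ X ^ M ∧ Q < D ^ 2 ∧
      (Q : ℝ) < L ^ K * |(SJ W Q D : ℝ)|) :
    (S.card : ℝ) ≤ 48 * 2 ^ j := by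
  rcases S.eq_empty_or_nonempty with rfl | ⟨D, hD⟩
  · rw [card_empty, Nat.cast_zero]
    positivity
  have hL0 : 0 < L := by linarith
  have hlogQ : 0 < Real.log Q := by
    have : (0 : ℝ) ≤ M := Nat.cast_nonneg _
    linarith
  have hQ0 : 0 < Q := by
    rcases Nat.eq_zero_or_pos Q with h | h
    · rw [h] at hlogQ
      simp at hlogQ
    · exact h
  have hQr : (0 : ℝ) < Q := by exact_mod_cast hQ0
  have hQ1 : 1 < Q := by
    by_contra h
    have : Q = 1 := by omega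
    rw [this] at hlogQ
    simp at hlogQ
  obtain ⟨hDX, hQD, -⟩ := hS2 D hD
  have hDb := hS hD
  unfold blk at hDb
  rw [mem_filter, mem_Icc] at hDb
  obtain ⟨⟨-, hDZ⟩, -, hDj⟩ := hDb
  -- the minimal `m`
  have hex : ∃ m, 64 * (256 ^ (j + 1)) ^ 2 ≤ Q ^ m :=
    (pow_unbounded_of_one_lt _ hQ1).imp fun m h => h.le
  classical
  obtain ⟨m, hm, hmin⟩ : ∃ m, 64 * (256 ^ (j + 1)) ^ 2 ≤ Q ^ m ∧
      ∀ m' < m, Q ^ m' < 64 * (256 ^ (j + 1)) ^ 2 :=
    ⟨Nat.find hex, Nat.find_spec hex, fun m' h => not_le.1 (Nat.find_min hex h)⟩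
  have hm1 : 1 ≤ m := by
    by_contra h
    have : m = 0 := by omega
    rw [this, pow_zero] at hm
    have h3 : 0 < (256 ^ (j + 1)) ^ 2 := by positivity
    omega
  obtain ⟨n, rfl⟩ : ∃ n, m = n + 1 := ⟨m - 1, by omega⟩
  have hn := hmin n (Nat.lt_succ_self n)
  -- `m ≤ L`
  have hXr : (2 : ℝ) ≤ X := by exact_mod_cast hX
  have hXexp : Real.exp L = X := by rw [hL, Real.exp_log (by linarith)]
  have hQexp : Real.exp (Real.log Q) = Q := Real.exp_log hQr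
  have hmL : ((n + 1 : ℕ) : ℝ) ≤ L := by
    by_contra hcon
    push Not at hcon
    push_cast at hcon
    have h3 : L / 2 ≤ n := by linarith
    have h4 : (2 * M + 22) * L ≤ n * Real.log Q := by
      have hM0 : (0 : ℝ) ≤ 2 * M + 22 := by positivity
      calc (2 * (M : ℝ) + 22) * L = (L / 2) * (2 * (2 * M + 22)) := by ring
        _ ≤ n * Real.log Q := by gcongr
    have h5 : (X : ℝ) ^ (2 * M + 22) ≤ (Q : ℝ) ^ n := by
      rw [← hXexp, ← hQexp, ← Real.exp_nat_mul, ← Real.exp_nat_mul, Real.exp_le_exp]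
      push_cast
      exact h4
    have h6 : (Q : ℝ) ^ n < 64 * ((256 : ℝ) ^ (j + 1)) ^ 2 := by exact_mod_cast hn
    have h7 : (256 : ℝ) ^ j < (X : ℝ) ^ M := by
      have : 256 ^ j < X ^ M := lt_of_lt_of_le hDj hDX
      exact_mod_cast this
    have h8 : (64 : ℝ) * ((256 : ℝ) ^ (j + 1)) ^ 2 ≤ 2 ^ 22 * (X : ℝ) ^ (2 * M) := by
      have h9 : ((256 : ℝ) ^ (j + 1)) ^ 2 = 65536 * ((256 : ℝ) ^ j) ^ 2 := by
        rw [pow_succ]
        ring
      rw [h9]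
      have h10 : ((256 : ℝ) ^ j) ^ 2 ≤ ((X : ℝ) ^ M) ^ 2 := by gcongr
      rw [← pow_mul (X : ℝ), mul_comm M 2] at h10
      linarith
    have h9 : (2 : ℝ) ^ 22 ≤ (X : ℝ) ^ 22 := by gcongr
    have h10 : (X : ℝ) ^ (2 * M + 22) = (X : ℝ) ^ 22 * (X : ℝ) ^ (2 * M) := by ring
    have h11 : (0 : ℝ) < (X : ℝ) ^ (2 * M) := by positivity
    nlinarith
  have hfac : (((n + 1).factorial : ℕ) : ℝ) ≤ L ^ (n + 1) := by
    have h3 : (n + 1).factorial ≤ (n + 1) ^ (n + 1) := Nat.factorial_le_pow _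
    have h4 : (((n + 1).factorial : ℕ) : ℝ) ≤ ((n + 1 : ℕ) : ℝ) ^ (n + 1) := by exact_mod_cast h3
    exact h4.trans (pow_le_pow_left₀ (Nat.cast_nonneg _) hmL _)
  -- Chebyshev
  have hLK : 0 < L ^ K := by positivity
  have h3 := cheb h1 W Q (n + 1) j h8 hW S hS (Q / L ^ K) (by positivity) (by
    intro D hD
    rw [div_le_iff₀ hLK, mul_comm]
    exact (hS2 D hD).2.2.le)
  have hmR : 64 * ((256 : ℝ) ^ (j + 1)) ^ 2 ≤ (Q : ℝ) ^ (n + 1) := by exact_mod_cast hm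
  have h4 : (S.card : ℝ) ≤ 12 * L ^ ((2 * K + 1) * (n + 1)) := by
    have hQm : (0 : ℝ) < (Q : ℝ) ^ (2 * (n + 1)) := by positivity
    rw [div_pow, ← mul_div_assoc, div_le_iff₀ (by positivity)] at h3
    refine le_of_mul_le_mul_right (a := (Q : ℝ) ^ (2 * (n + 1))) (h3.trans ?_) hQm
    calc 6 * ((Q : ℝ) ^ (n + 1) + 64 * ((256 : ℝ) ^ (j + 1)) ^ 2) *
          ((n + 1).factorial * (Q : ℝ) ^ (n + 1)) * (L ^ K) ^ (2 * (n + 1))
        ≤ 6 * ((Q : ℝ) ^ (n + 1) + (Q : ℝ) ^ (n + 1)) *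
          (L ^ (n + 1) * (Q : ℝ) ^ (n + 1)) * (L ^ K) ^ (2 * (n + 1)) := by gcongr
      _ = 12 * L ^ ((2 * K + 1) * (n + 1)) * (Q : ℝ) ^ (2 * (n + 1)) := by
          have e1 : L ^ ((2 * K + 1) * (n + 1)) = (L ^ K) ^ (2 * (n + 1)) * L ^ (n + 1) := by
            rw [← pow_mul, ← pow_add]
            congr 1
            ring
          have e2 : (Q : ℝ) ^ (2 * (n + 1)) = (Q : ℝ) ^ (n + 1) * (Q : ℝ) ^ (n + 1) := by
            rw [← pow_add]
            congr 1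
            ring
          rw [e1, e2]
          ring
  -- the bound of the power of `L`
  have h5 : L ^ ((2 * K + 1) * (n + 1)) ≤ 4 * 2 ^ j := by
    refine le_of_pow_le_pow_left₀ (n := 32) (by norm_num) (by positivity) ?_
    have h6 : (L ^ ((2 * K + 1) * (n + 1))) ^ 32 * L ^ (n + 1) ≤ (Q : ℝ) ^ (n + 1) * L ^ (n + 1) := by
      calc (L ^ ((2 * K + 1) * (n + 1))) ^ 32 * L ^ (n + 1)
          = (L ^ (32 * (2 * K + 1) + 1)) ^ (n + 1) := by
            rw [← pow_mul, ← pow_mul, ← pow_add]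
            congr 1
            ring
        _ ≤ (2 * Q) ^ (n + 1) := by gcongr
        _ = 2 ^ (n + 1) * (Q : ℝ) ^ (n + 1) := by rw [mul_pow]
        _ ≤ L ^ (n + 1) * (Q : ℝ) ^ (n + 1) := by gcongr
        _ = _ := by ring
    have h7 := le_of_mul_le_mul_right h6 (by positivity)
    refine h7.trans ?_
    have h8 : Q ^ (n + 1) ≤ 64 * (256 ^ (j + 1)) ^ 2 * (256 ^ (j + 1)) ^ 2 := by
      rw [pow_succ]
      refine Nat.mul_le_mul hn.le ?_
      exact hQD.le.trans (Nat.pow_le_pow_left hDZ 2)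
    have h9 : (Q : ℝ) ^ (n + 1) ≤ 64 * ((256 : ℝ) ^ (j + 1)) ^ 2 * ((256 : ℝ) ^ (j + 1)) ^ 2 := by
      exact_mod_cast h8
    refine h9.trans ?_
    have h10 : (64 : ℝ) * ((256 : ℝ) ^ (j + 1)) ^ 2 * ((256 : ℝ) ^ (j + 1)) ^ 2 =
        2 ^ 38 * (2 ^ j) ^ 32 := by
      have e0 : (256 : ℝ) ^ j = (2 ^ j) ^ 8 := by
        rw [← pow_mul, mul_comm, pow_mul]
        norm_num
      have e1 : (256 : ℝ) ^ (j + 1) = 256 * (2 ^ j) ^ 8 := by
        rw [pow_succ, e0]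
        ring
      rw [e1]
      ring
    have h11 : ((4 : ℝ) * 2 ^ j) ^ 32 = 2 ^ 64 * (2 ^ j) ^ 32 := by
      rw [mul_pow]
      norm_num
    rw [h10, h11]
    have : (0 : ℝ) ≤ (2 ^ j) ^ 32 := by positivity
    nlinarith
  linarith

theorem sum_sqrt (j : ℕ) (S : Finset ℕ) (hS : S ⊆ blk j) :
    ∑ D ∈ S, 1 / Real.sqrt D ≤ (S.card : ℝ) / 16 ^ j := by
  have h1 : ∀ D ∈ S, 1 / Real.sqrt D ≤ 1 / 16 ^ j := by
    intro D hD
    have h2 := hS hD
    unfold blk at h2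
    rw [mem_filter] at h2
    apply one_div_le_one_div_of_le (by positivity)
    apply Real.le_sqrt_of_sq_le
    have h3 : (256 : ℝ) ^ j < D := by exact_mod_cast h2.2.2
    have h4 : ((16 : ℝ) ^ j) ^ 2 = 256 ^ j := by
      rw [← pow_mul, mul_comm, pow_mul]
      norm_num
    rw [h4]
    exact h3.le
  calc ∑ D ∈ S, 1 / Real.sqrt D ≤ ∑ _D ∈ S, (1 : ℝ) / 16 ^ j := sum_le_sum h1
    _ = _ := by rw [sum_const, nsmul_eq_mul]; ring

/-- the estimate for one block -/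
theorem block (h1 : S_LSM) (W Q K B M X j Q0 : ℕ) (L δ : ℝ) (hδ : 0 < δ) (h8 : 8 ∣ W) (hW : 0 < W)
    (hX : 2 ≤ X) (hL : L = Real.log X) (hL2 : 2 ≤ L)
    (hQL : L ^ (32 * (2 * K + 1) + 1) ≤ 2 * Q) (hQM : 2 * (2 * M + 22) ≤ Real.log Q)
    (hQ0 : Q0 ≤ Q) (hSW : ∀ Q : ℕ, Q0 ≤ Q → ∀ D : ℕ, 2 ≤ D →
      (D : ℝ) ≤ (Real.log Q) ^ (8 * B + 4) → Odd D → Squarefree D → D.Coprime W →
      (Real.log Q) ^ B * |(SJ W Q D : ℝ)| ≤ Q)
    (hδ1 : 120000000 ≤ δ * Real.log Q) (hδ2 : (192 / δ) ^ 8 ≤ Q)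
    (S : Finset ℕ) (hS : S ⊆ blk j) (hS2 : ∀ D ∈ S, (2 ≤ D ∧ D ≤ X ^ M) ∧ D.Coprime W ∧
      BadD W K B Q L D) :
    ∑ D ∈ S, 1 / Real.sqrt D ≤ 2 * δ / 2 ^ j := by
  classical
  have hM0 : (0 : ℝ) ≤ M := Nat.cast_nonneg _
  have hlogQ : 1 ≤ Real.log Q := by linarith
  have hQ2 : 2 ≤ Q := by
    by_contra h
    have h2 : Q = 0 ∨ Q = 1 := by omega
    rcases h2 with h2 | h2
    · rw [h2] at hlogQ
      simp at hlogQ
      linarith
    · rw [h2] at hlogQ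
      simp at hlogQ
      linarith
  set S1 := S.filter (fun D => D ^ 2 ≤ Q) with hS1
  set S2 := S.filter (fun D => ¬ D ^ 2 ≤ Q) with hS2'
  have hsplit : ∑ D ∈ S, 1 / Real.sqrt D =
      ∑ D ∈ S1, 1 / Real.sqrt D + ∑ D ∈ S2, 1 / Real.sqrt D :=
    (sum_filter_add_sum_filter_not S _ _).symm
  have hb1 : ∑ D ∈ S1, 1 / Real.sqrt D ≤ δ / 2 ^ j := by
    rcases S1.eq_empty_or_nonempty with h | ⟨D, hD⟩
    · rw [h, sum_empty]
      positivity
    have hsub : S1 ⊆ blk j := (filter_subset _ _).trans hS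
    have hbad : ∀ D ∈ S1, D ^ 2 ≤ Q ∧ (Q : ℝ) < (Real.log Q) ^ B * |(SJ W Q D : ℝ)| := by
      intro D hD
      rw [hS1, mem_filter] at hD
      obtain ⟨-, -, h3⟩ := hS2 D hD.1
      rcases h3 with h3 | h3
      · exact h3
      · exact absurd hD.2 (not_le.2 h3.1)
    have hcard := block1 h1 W Q B j h8 hW hQ2 S1 hsub hbad
    have hDlarge : (Real.log Q) ^ (8 * B + 4) < D := by
      by_contra hcon
      push Not at hcon
      have h3 := hbad D hD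
      rw [hS1, mem_filter] at hD
      obtain ⟨⟨h4, -⟩, h5, -⟩ := hS2 D hD.1
      have h6 := hS hD.1
      unfold blk at h6
      rw [mem_filter] at h6
      have h7 := hSW Q hQ0 D h4 hcon h6.2.1.1 h6.2.1.2 h5
      linarith [h3.2]
    have hDZ : (D : ℝ) ≤ (256 : ℝ) ^ (j + 1) := by
      have h6 := hsub hD
      unfold blk at h6
      rw [mem_filter, mem_Icc] at h6
      exact_mod_cast h6.1.2
    have h4j : (Real.log Q) ^ (2 * B + 1) ≤ 4 * 4 ^ j := by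
      refine le_of_pow_le_pow_left₀ (n := 4) (by norm_num) (by positivity) ?_
      have e1 : ((Real.log Q) ^ (2 * B + 1)) ^ 4 = (Real.log Q) ^ (8 * B + 4) := by
        rw [← pow_mul]
        congr 1
        ring
      have e2 : ((4 : ℝ) * 4 ^ j) ^ 4 = 256 ^ (j + 1) := by
        rw [mul_pow, ← pow_mul, mul_comm j 4, pow_mul, pow_succ]
        norm_num
        ring
      rw [e1, e2]
      linarith
    refine (sum_sqrt j S1 hsub).trans ?_
    rw [div_le_div_iff₀ (by positivity) (by positivity)]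
    have e3 : (16 : ℝ) ^ j = 4 ^ j * (2 ^ j * 2 ^ j) := by
      rw [← mul_pow, ← mul_pow]
      norm_num
    rw [e3]
    have h2j : (1 : ℝ) ≤ 2 ^ j := one_le_pow₀ (by norm_num)
    have hlB : (0 : ℝ) < (Real.log Q) ^ (2 * B) := by positivity
    have h9 : 30000000 * (Real.log Q) ^ (2 * B) ≤ δ * 4 ^ j := by
      have h10 : (Real.log Q) ^ (2 * B) * Real.log Q ≤ 4 * 4 ^ j := by
        rw [← pow_succ]
        exact h4j
      have h11 : 120000000 * (Real.log Q) ^ (2 * B) ≤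
          (δ * Real.log Q) * (Real.log Q) ^ (2 * B) := by gcongr
      nlinarith
    calc (S1.card : ℝ) * 2 ^ j ≤ (30000000 * (Real.log Q) ^ (2 * B)) * 2 ^ j := by gcongr
      _ ≤ (δ * 4 ^ j) * 2 ^ j := by gcongr
      _ ≤ (δ * 4 ^ j) * (2 ^ j * 2 ^ j) := by
          have : (2 : ℝ) ^ j ≤ 2 ^ j * 2 ^ j := by nlinarith
          gcongr
      _ = _ := by ring
  have hb2 : ∑ D ∈ S2, 1 / Real.sqrt D ≤ δ / 2 ^ j := by
    rcases S2.eq_empty_or_nonempty with h | ⟨D, hD⟩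
    · rw [h, sum_empty]
      positivity
    have hsub : S2 ⊆ blk j := (filter_subset _ _).trans hS
    have hbad : ∀ D ∈ S2, D ≤ X ^ M ∧ Q < D ^ 2 ∧ (Q : ℝ) < L ^ K * |(SJ W Q D : ℝ)| := by
      intro D hD
      rw [hS2', mem_filter, not_le] at hD
      obtain ⟨h4, -, h3⟩ := hS2 D hD.1
      rcases h3 with h3 | h3
      · exact absurd h3.1 (not_le.2 hD.2)
      · exact ⟨h4.2, h3.1, h3.2⟩
    have hcard := block2 h1 W Q K M X j L h8 hW hX hL hL2 hQL hQM S2 hsub hbad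
    have hQZ : (Q : ℝ) ≤ (4 * 4 ^ j) ^ 8 := by
      have h6 := hsub hD
      unfold blk at h6
      rw [mem_filter, mem_Icc] at h6
      have h7 : Q ≤ (256 ^ (j + 1)) ^ 2 :=
        (hbad D hD).2.1.le.trans (Nat.pow_le_pow_left h6.1.2 2)
      have h8 : (Q : ℝ) ≤ ((256 : ℝ) ^ (j + 1)) ^ 2 := by exact_mod_cast h7
      refine h8.trans (le_of_eq ?_)
      rw [mul_pow, ← pow_mul, ← pow_mul, mul_comm j 8, pow_mul 4, mul_comm (j + 1) 2, pow_mul 256,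
        pow_succ]
      norm_num
      ring
    have h4j : 192 / δ ≤ 4 * 4 ^ j :=
      le_of_pow_le_pow_left₀ (n := 8) (by norm_num) (by positivity) (hδ2.trans hQZ)
    rw [div_le_iff₀ hδ] at h4j
    refine (sum_sqrt j S2 hsub).trans ?_
    rw [div_le_div_iff₀ (by positivity) (by positivity)]
    have e3 : (16 : ℝ) ^ j = 4 ^ j * (2 ^ j * 2 ^ j) := by
      rw [← mul_pow, ← mul_pow]
      norm_num
    rw [e3]
    calc (S2.card : ℝ) * 2 ^ j ≤ (48 * 2 ^ j) * 2 ^ j := by gcongr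
      _ = 48 * (2 ^ j * 2 ^ j) := by ring
      _ ≤ (δ * 4 ^ j) * (2 ^ j * 2 ^ j) := by
          have : (48 : ℝ) ≤ δ * 4 ^ j := by linarith
          gcongr
      _ = _ := by ring
  rw [hsplit]
  have : 2 * δ / 2 ^ j = δ / 2 ^ j + δ / 2 ^ j := by ring
  rw [this]
  exact add_le_add hb1 hb2

theorem eqd_of (h1 : S_LSM) (h2 : S_SWJ) : S_EQD := by
  classical
  intro K B M
  refine ⟨32 * (2 * K + 1) + 1, fun W h8 hW ε hε => ?_⟩
  obtain ⟨Q0, hQ0⟩ := h2 W (8 * B + 4) B h8 hW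
  set C := 32 * (2 * K + 1) + 1 with hC
  set δ := ε / 4 with hδdef
  have hδ : 0 < δ := by positivity
  have tL : Filter.Tendsto (fun X : ℕ => Real.log (X : ℝ)) Filter.atTop Filter.atTop :=
    Real.tendsto_log_atTop.comp tendsto_natCast_atTop_atTop
  have tLC : Filter.Tendsto (fun X : ℕ => (Real.log (X : ℝ)) ^ C) Filter.atTop Filter.atTop :=
    (Filter.tendsto_pow_atTop (by omega)).comp tL
  have tQ : Filter.Tendsto (fun X : ℕ => ⌊(Real.log (X : ℝ)) ^ C⌋₊) Filter.atTop Filter.atTop :=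
    tendsto_nat_floor_atTop.comp tLC
  have tQr : Filter.Tendsto (fun X : ℕ => ((⌊(Real.log (X : ℝ)) ^ C⌋₊ : ℕ) : ℝ)) Filter.atTop
      Filter.atTop := tendsto_natCast_atTop_atTop.comp tQ
  have tlQ : Filter.Tendsto (fun X : ℕ => Real.log ((⌊(Real.log (X : ℝ)) ^ C⌋₊ : ℕ) : ℝ))
      Filter.atTop Filter.atTop := Real.tendsto_log_atTop.comp tQr
  have hev := (Filter.eventually_ge_atTop 2).and ((tL.eventually_ge_atTop 2).and
    ((tlQ.eventually_ge_atTop (2 * (2 * (M : ℝ) + 22))).and ((tQ.eventually_ge_atTop Q0).and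
    ((tlQ.eventually_ge_atTop (120000000 / δ)).and (tQr.eventually_ge_atTop ((192 / δ) ^ 8))))))
  obtain ⟨X0, hX0⟩ := Filter.eventually_atTop.1 hev
  refine ⟨X0, fun X hX => ?_⟩
  obtain ⟨c1, c2, c3, c4, c5, c6⟩ := hX0 X hX
  set L := Real.log (X : ℝ) with hL
  set Q := ⌊L ^ C⌋₊ with hQ
  have hQL : L ^ C ≤ 2 * Q := by
    have h3 : L ^ C < Q + 1 := Nat.lt_floor_add_one _
    have h4 : 1 ≤ Q := by
      rw [hQ]
      apply Nat.le_floor
      rw [Nat.cast_one]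
      exact one_le_pow₀ (by linarith)
    have h5 : (1 : ℝ) ≤ Q := by exact_mod_cast h4
    linarith
  rw [div_le_iff₀ hδ] at c5
  set S := (Icc 2 (X ^ M)).filter (fun D => Odd D ∧ Squarefree D ∧ D.Coprime W ∧
      BadD W K B Q L D) with hS
  let f : ℕ → ℕ := fun D => Nat.log 256 (D - 1)
  have hf : ∀ D, 2 ≤ D → 256 ^ (f D) < D ∧ D ≤ 256 ^ (f D + 1) := by
    intro D hD
    have h3 := Nat.pow_log_le_self 256 (x := D - 1) (by omega)
    have h4 := Nat.lt_pow_succ_log_self (b := 256) (by norm_num) (D - 1)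
    constructor
    · change 256 ^ (Nat.log 256 (D - 1)) < D
      omega
    · change D ≤ 256 ^ (Nat.log 256 (D - 1) + 1)
      rw [Nat.succ_eq_add_one] at h4
      omega
  have hmaps : ∀ D ∈ S, f D ∈ range (X ^ M + 1) := by
    intro D hD
    rw [hS, mem_filter, mem_Icc] at hD
    rw [mem_range]
    have h3 := (hf D hD.1.1).1
    have h4 : f D < 256 ^ (f D) := Nat.lt_pow_self (by norm_num)
    omega
  rw [← sum_fiberwise_of_maps_to hmaps]
  have hblock : ∀ j ∈ range (X ^ M + 1), ∑ D ∈ S.filter (fun D => f D = j), 1 / Real.sqrt D ≤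
      2 * δ / 2 ^ j := by
    intro j _
    refine block h1 W Q K B M X j Q0 L δ hδ h8 hW c1 hL c2 hQL c3 c4 hQ0 ?_ c6 _ ?_ ?_
    · rw [mul_comm]
      exact c5
    · intro D hD
      rw [mem_filter, hS, mem_filter, mem_Icc] at hD
      obtain ⟨⟨⟨h3, h4⟩, h5, h6, h7, h9⟩, h10⟩ := hD
      have h11 := hf D h3
      rw [h10] at h11
      unfold blk
      rw [mem_filter, mem_Icc]
      exact ⟨⟨by omega, h11.2⟩, ⟨h5, h6⟩, h11.1⟩
    · intro D hD
      rw [mem_filter, hS, mem_filter, mem_Icc] at hD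
      obtain ⟨⟨⟨h3, h4⟩, h5, h6, h7, h9⟩, h10⟩ := hD
      exact ⟨⟨h3, h4⟩, h7, h9⟩
  refine (sum_le_sum hblock).trans ?_
  have hgeo : ∀ n : ℕ, ∑ j ∈ range n, (1 : ℝ) / 2 ^ j ≤ 2 - 2 / 2 ^ n := by
    intro n
    induction n with
    | zero => simp
    | succ n ih =>
      rw [sum_range_succ]
      have h3 : (2 : ℝ) / 2 ^ (n + 1) = 1 / 2 ^ n := by
        rw [pow_succ]
        field_simp
      have h4 : (2 : ℝ) / 2 ^ n = 1 / 2 ^ n + 1 / 2 ^ n := by ring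
      rw [h3]
      linarith
  have h5 : ∑ j ∈ range (X ^ M + 1), 2 * δ / 2 ^ j =
      2 * δ * ∑ j ∈ range (X ^ M + 1), (1 : ℝ) / 2 ^ j := by
    rw [mul_sum]
    refine sum_congr rfl fun j _ => ?_
    ring
  rw [h5]
  have h6 := hgeo (X ^ M + 1)
  have h7 : (0 : ℝ) < 2 / 2 ^ (X ^ M + 1) := by positivity
  have h8 : ∑ j ∈ range (X ^ M + 1), (1 : ℝ) / 2 ^ j ≤ 2 := by linarith
  calc 2 * δ * ∑ j ∈ range (X ^ M + 1), (1 : ℝ) / 2 ^ j ≤ 2 * δ * 2 := by gcongr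
    _ = ε := by rw [hδdef]; ring

end Pool.Agent.Y157.SH
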